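import Pool.Agent.Helper69.UX.StB

/-!
# Project UX: module CRU
-/

set_option autoImplicit false

namespace Pool.Agent.Helper11.UX

open Finset Filter Pool.Agent.Helper82.CN Pool.Agent.Helper11.PV Pool.Agent.Helper69.VX
open Pool.Agent.Helper69.UX

section basic

variable {n : ℕ}

private theorem mem_Pt (P : Finset (Finset (Fin n))) : P ∈ Pt (Fin n) ↔
    (∀ A ∈ P, A.Nonempty) ∧ (∀ A ∈ P, ∀ B ∈ P, A ≠ B → Disjoint A B) ∧
      ∀ v : Fin n, ∃ A ∈ P, v ∈ A := by
  unfold Pt
  simp only [Finset.mem_filter, Finset.mem_univ, true_and]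

/-- `x` and `y` are in the same class -/
private def Rel (Q : Finset (Finset (Fin n))) (x y : Fin n) : Prop := ∃ B ∈ Q, x ∈ B ∧ y ∈ B

private theorem same (Q : Finset (Finset (Fin n))) (hQ : Q ∈ Pt (Fin n)) (B B' : Finset (Fin n))
    (hB : B ∈ Q) (hB' : B' ∈ Q) (x : Fin n) (h : x ∈ B) (h' : x ∈ B') : B = B' := by
  by_contra hne
  exact (disjoint_left.1 (((mem_Pt Q).1 hQ).2.1 B hB B' hB' hne)) h h'

private theorem rel_refl (Q : Finset (Finset (Fin n))) (hQ : Q ∈ Pt (Fin n)) (x : Fin n) :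
    Rel Q x x := by
  obtain ⟨B, hB, hx⟩ := ((mem_Pt Q).1 hQ).2.2 x
  exact ⟨B, hB, hx, hx⟩

private theorem rel_symm (Q : Finset (Finset (Fin n))) (x y : Fin n) (h : Rel Q x y) :
    Rel Q y x := by
  obtain ⟨B, hB, hx, hy⟩ := h
  exact ⟨B, hB, hy, hx⟩

private theorem rel_trans (Q : Finset (Finset (Fin n))) (hQ : Q ∈ Pt (Fin n)) (x y z : Fin n)
    (h : Rel Q x y) (h' : Rel Q y z) : Rel Q x z := by
  obtain ⟨B, hB, hx, hy⟩ := h
  obtain ⟨B', hB', hy', hz⟩ := h'
  have := same Q hQ B B' hB hB' y hy hy'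
  subst this
  exact ⟨B, hB, hx, hz⟩

private theorem sub_of_rel (Q Q' : Finset (Finset (Fin n))) (hQ : Q ∈ Pt (Fin n))
    (hQ' : Q' ∈ Pt (Fin n)) (h : ∀ x y, Rel Q x y ↔ Rel Q' x y) : Q ⊆ Q' := by
  intro B hB
  obtain ⟨x, hx⟩ := ((mem_Pt Q).1 hQ).1 B hB
  obtain ⟨B', hB', hx'⟩ := ((mem_Pt Q').1 hQ').2.2 x
  have : B = B' := by
    ext y
    constructor
    · intro hy
      obtain ⟨B'', hB'', hx'', hy''⟩ := (h x y).1 ⟨B, hB, hx, hy⟩
      have := same Q' hQ' B'' B' hB'' hB' x hx'' hx'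
      rwa [this] at hy''
    · intro hy
      obtain ⟨B'', hB'', hx'', hy''⟩ := (h x y).2 ⟨B', hB', hx', hy⟩
      have := same Q hQ B'' B hB'' hB x hx'' hx
      rwa [this] at hy''
  rw [this]
  exact hB'

/-! ### Small facts -/

private theorem two_choose (r : ℕ) : 2 * r.choose 2 = r * (r - 1) := by
  rw [Nat.choose_two_right]
  have h : 2 ∣ r * (r - 1) := (Nat.even_mul_pred_self r).two_dvd
  exact Nat.mul_div_cancel' h

private theorem choose_add (a b : ℕ) : a.choose 2 + b.choose 2 ≤ (a + b).choose 2 := by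
  rw [Nat.add_choose_eq]
  have h : ∀ s : ℕ × ℕ, 0 ≤ a.choose s.1 * b.choose s.2 := fun _ => Nat.zero_le _
  have h1 : ({(0, 2), (2, 0)} : Finset (ℕ × ℕ)) ⊆ antidiagonal 2 := by
    intro s hs
    simp only [mem_insert, mem_singleton] at hs
    rw [HasAntidiagonal.mem_antidiagonal]
    rcases hs with rfl | rfl <;> rfl
  refine le_trans (le_of_eq ?_) (sum_le_sum_of_subset_of_nonneg h1 fun s _ _ => h s)
  rw [sum_pair (by decide)]
  simp only [Nat.choose_zero_right, one_mul, mul_one]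
  ring

private theorem sum_choose {ι : Type} (s : Finset ι) (f : ι → ℕ) :
    ∑ i ∈ s, (f i).choose 2 ≤ (∑ i ∈ s, f i).choose 2 := by
  classical
  induction s using Finset.induction_on with
  | empty => simp
  | insert a s ha ih =>
    rw [sum_insert ha, sum_insert ha]
    exact (Nat.add_le_add_left ih _).trans (choose_add _ _)

private theorem sum_inter (Q : Finset (Finset (Fin n))) (hQ : Q ∈ Pt (Fin n))
    (B : Finset (Fin n)) : ∑ A ∈ Q, (A ∩ B).card ≤ B.card := by
  rw [← card_biUnion]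
  · refine card_le_card ?_
    intro x hx
    obtain ⟨A, -, hA⟩ := mem_biUnion.1 hx
    exact (mem_inter.1 hA).2
  · intro A hA A' hA' hne
    exact (((mem_Pt Q).1 hQ).2.1 A hA A' hA' hne).mono inter_subset_left inter_subset_left

private theorem sum_block (Q : Finset (Finset (Fin n))) (hQ : Q ∈ Pt (Fin n))
    (B : Finset (Fin n)) : ∑ A ∈ Q, (A ∩ B).card.choose 2 ≤ B.card.choose 2 :=
  (sum_choose Q _).trans (Nat.choose_le_choose 2 (sum_inter Q hQ B))

private theorem mxb_attained (Q : Finset (Finset (Fin n))) (A : Finset (Fin n)) (R : ℕ)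
    (h : R < mxb Q A) : ∃ B ∈ Q, (A ∩ B).card = mxb Q A := by
  have hne : Q.Nonempty := by
    by_contra hcon
    rw [not_nonempty_iff_eq_empty] at hcon
    subst hcon
    simp [mxb] at h
  obtain ⟨B, hB, h1⟩ := exists_mem_eq_sup Q hne (fun B => (A ∩ B).card)
  exact ⟨B, hB, h1.symm⟩

/-! ### The code -/

open Classical in
/-- the vertices outside the big blocks -/
private noncomputable def V1 (R : ℕ) (P Q : Finset (Finset (Fin n))) : Finset (Fin n) :=
  univ.filter (fun x => ∀ C ∈ P, ∀ B ∈ Q, x ∈ C → x ∈ B → (C ∩ B).card ≤ R)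

private theorem not_mem_V1 (R : ℕ) (P Q : Finset (Finset (Fin n))) (x : Fin n) :
    x ∉ V1 R P Q ↔ ∃ C ∈ P, ∃ B ∈ Q, x ∈ C ∧ x ∈ B ∧ R < (C ∩ B).card := by
  unfold V1
  rw [mem_filter]
  simp only [mem_univ, true_and]
  push Not
  rfl

private theorem card_V1 (R : ℕ) (P Q : Finset (Finset (Fin n))) (hP : P ∈ Pt (Fin n)) :
    (V1 R P Q).card ≤ NR R P Q := by
  classical
  have h1 : ∑ A ∈ bigS R P Q, mxb Q A ≤ (V1 R P Q)ᶜ.card := by
    have hch : ∀ A ∈ bigS R P Q, ∃ B ∈ Q, (A ∩ B).card = mxb Q A := fun A hA =>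
      mxb_attained Q A R (mem_filter.1 hA).2
    choose! b hb hb' using hch
    calc ∑ A ∈ bigS R P Q, mxb Q A = ∑ A ∈ bigS R P Q, (A ∩ b A).card :=
          sum_congr rfl fun A hA => (hb' A hA).symm
      _ = ((bigS R P Q).biUnion fun A => A ∩ b A).card := by
          rw [card_biUnion]
          intro A hA A' hA' hne
          exact (((mem_Pt P).1 hP).2.1 A (mem_filter.1 hA).1 A' (mem_filter.1 hA').1 hne).mono
            inter_subset_left inter_subset_left
      _ ≤ _ := by
          refine card_le_card ?_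
          intro x hx
          obtain ⟨A, hA, hx'⟩ := mem_biUnion.1 hx
          rw [mem_compl, not_mem_V1]
          refine ⟨A, (mem_filter.1 hA).1, b A, hb A hA, (mem_inter.1 hx').1, (mem_inter.1 hx').2, ?_⟩
          rw [hb' A hA]
          exact (mem_filter.1 hA).2
  have h2 : (V1 R P Q).card + (V1 R P Q)ᶜ.card = Fintype.card (Fin n) := card_add_card_compl _
  unfold NR
  omega

open Classical in
/-- the representative -/
private noncomputable def tt (R : ℕ) (P Q : Finset (Finset (Fin n))) (x : Fin n) : Fin n :=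
  if ∃ y, Rel Q x y ∧ y ∉ V1 R P Q then
    @Classical.epsilon _ ⟨x⟩ (fun y => Rel Q x y ∧ y ∉ V1 R P Q)
  else @Classical.epsilon _ ⟨x⟩ (Rel Q x)

private theorem rel_tt (R : ℕ) (P Q : Finset (Finset (Fin n))) (hQ : Q ∈ Pt (Fin n))
    (x : Fin n) : Rel Q x (tt R P Q x) := by
  unfold tt
  split_ifs with h
  · exact (@Classical.epsilon_spec_aux _ ⟨x⟩ (fun y => Rel Q x y ∧ y ∉ V1 R P Q) h).1
  · exact @Classical.epsilon_spec_aux _ ⟨x⟩ (Rel Q x) ⟨x, rel_refl Q hQ x⟩

private theorem tt_mem (R : ℕ) (P Q : Finset (Finset (Fin n))) (x y : Fin n)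
    (h : tt R P Q x ∈ V1 R P Q) (hxy : Rel Q x y) : y ∈ V1 R P Q := by
  by_contra hcon
  have h1 : ∃ y, Rel Q x y ∧ y ∉ V1 R P Q := ⟨y, hxy, hcon⟩
  unfold tt at h
  rw [if_pos h1] at h
  exact (@Classical.epsilon_spec_aux _ ⟨x⟩ (fun y => Rel Q x y ∧ y ∉ V1 R P Q) h1).2 h

private theorem tt_eq (R : ℕ) (P Q : Finset (Finset (Fin n))) (hQ : Q ∈ Pt (Fin n))
    (x y : Fin n) (hxy : Rel Q x y) : tt R P Q x = tt R P Q y := by
  have h : Rel Q x = Rel Q y := by
    funext z
    exact propext ⟨fun h => rel_trans Q hQ _ _ _ (rel_symm Q _ _ hxy) h,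
      fun h => rel_trans Q hQ _ _ _ hxy h⟩
  unfold tt
  rw [h]

/-- outside `V1` the classes of `Q` are given by those of `P` -/
private theorem rel_iff_out (A R : ℕ) (P Q : Finset (Finset (Fin n))) (hP : P ∈ Pt (Fin n))
    (hQ : Q ∈ Pt (Fin n)) (hPA : ∀ C ∈ P, C.card ≤ A) (hQA : ∀ B ∈ Q, B.card ≤ A)
    (hA : A ≤ 2 * R) (u v : Fin n) (hu : u ∉ V1 R P Q) (hv : v ∉ V1 R P Q) :
    Rel Q u v ↔ Rel P u v := by
  rw [not_mem_V1] at hu hv
  obtain ⟨C, hC, B, hB, huC, huB, hu1⟩ := hu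
  obtain ⟨C', hC', B', hB', hvC, hvB, hv1⟩ := hv
  constructor
  · rintro ⟨D, hD, huD, hvD⟩
    have e1 := same Q hQ D B hD hB u huD huB
    have e2 := same Q hQ D B' hD hB' v hvD hvB
    subst e1
    subst e2
    have e3 : C = C' := by
      by_contra hne
      have h1 : Disjoint (C ∩ D) (C' ∩ D) :=
        (((mem_Pt P).1 hP).2.1 C hC C' hC' hne).mono inter_subset_left inter_subset_left
      have h2 := card_union_of_disjoint h1
      have h3 : (C ∩ D ∪ C' ∩ D).card ≤ D.card :=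
        card_le_card (union_subset inter_subset_right inter_subset_right)
      have := hQA D hB
      omega
    subst e3
    exact ⟨C, hC, huC, hvC⟩
  · rintro ⟨D, hD, huD, hvD⟩
    have e1 := same P hP D C hD hC u huD huC
    have e2 := same P hP D C' hD hC' v hvD hvC
    subst e1
    subst e2
    have e3 : B = B' := by
      by_contra hne
      have h1 : Disjoint (D ∩ B) (D ∩ B') :=
        (((mem_Pt Q).1 hQ).2.1 B hB B' hB' hne).mono inter_subset_right inter_subset_right
      have h2 := card_union_of_disjoint h1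
      have h3 : (D ∩ B ∪ D ∩ B').card ≤ D.card :=
        card_le_card (union_subset inter_subset_left inter_subset_left)
      have := hPA D hC
      omega
    subst e3
    exact ⟨B, hB, huB, hvB⟩

open Classical in
/-- the representative used for the code -/
private noncomputable def rr (W : Finset (Fin n)) (t : Fin n → Fin n) (x : Fin n) : Fin n :=
  if x ∈ W then t x else x

private theorem rel_code (A R : ℕ) (P Q : Finset (Finset (Fin n))) (hP : P ∈ Pt (Fin n))
    (hQ : Q ∈ Pt (Fin n)) (hPA : ∀ C ∈ P, C.card ≤ A) (hQA : ∀ B ∈ Q, B.card ≤ A)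
    (hA : A ≤ 2 * R) (W : Finset (Fin n)) (hW : V1 R P Q = W) (t : Fin n → Fin n)
    (ht : ∀ x ∈ W, tt R P Q x = t x) (x y : Fin n) :
    Rel Q x y ↔ (rr W t x ∉ W ∧ rr W t y ∉ W ∧ Rel P (rr W t x) (rr W t y)) ∨
      (rr W t x ∈ W ∧ rr W t y ∈ W ∧ rr W t x = rr W t y) := by
  have hF1 : ∀ z, Rel Q z (rr W t z) := by
    intro z
    unfold rr
    split_ifs with hz
    · rw [← ht z hz]
      exact rel_tt R P Q hQ z
    · exact rel_refl Q hQ z
  have hin : ∀ z, rr W t z ∈ W → z ∈ W ∧ rr W t z = tt R P Q z := by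
    intro z hz
    by_cases h : z ∈ W
    · refine ⟨h, ?_⟩
      unfold rr
      rw [if_pos h, ht z h]
    · unfold rr at hz
      rw [if_neg h] at hz
      exact absurd hz h
  have hF3 : ∀ z w, rr W t z ∈ W → Rel Q z w → w ∈ W := by
    intro z w hz hzw
    obtain ⟨h1, h2⟩ := hin z hz
    rw [h2, ← hW] at hz
    rw [← hW]
    exact tt_mem R P Q z w hz hzw
  constructor
  · intro hxy
    by_cases hx : rr W t x ∈ W
    · right
      have hyW : y ∈ W := hF3 x y hx hxy
      have hry : rr W t y ∈ W := hF3 x _ hx (rel_trans Q hQ _ _ _ hxy (hF1 y))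
      refine ⟨hx, hry, ?_⟩
      rw [(hin x hx).2, (hin y hry).2]
      exact tt_eq R P Q hQ x y hxy
    · left
      have hy : rr W t y ∉ W := by
        intro hy
        exact hx (hF3 y _ hy (rel_trans Q hQ _ _ _ (rel_symm Q _ _ hxy) (hF1 x)))
      refine ⟨hx, hy, ?_⟩
      rw [← rel_iff_out A R P Q hP hQ hPA hQA hA _ _ (by rwa [hW]) (by rwa [hW])]
      exact rel_trans Q hQ _ _ _ (rel_symm Q _ _ (hF1 x)) (rel_trans Q hQ _ _ _ hxy (hF1 y))
  · rintro (⟨hx, hy, h⟩ | ⟨hx, hy, h⟩)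
    · rw [← rel_iff_out A R P Q hP hQ hPA hQA hA _ _ (by rwa [hW]) (by rwa [hW])] at h
      exact rel_trans Q hQ _ _ _ (hF1 x) (rel_trans Q hQ _ _ _ h (rel_symm Q _ _ (hF1 y)))
    · have := hF1 x
      rw [h] at this
      exact rel_trans Q hQ _ _ _ this (rel_symm Q _ _ (hF1 y))

open Classical in
/-- the code -/
private noncomputable def code (R : ℕ) (P Q : Finset (Finset (Fin n))) : Finset (Fin n × Fin n) :=
  (V1 R P Q).image (fun x => (x, tt R P Q x))

private theorem code_inj (A R : ℕ) (P Q Q' : Finset (Finset (Fin n))) (hP : P ∈ Pt (Fin n))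
    (hQ : Q ∈ Pt (Fin n)) (hQ' : Q' ∈ Pt (Fin n)) (hPA : ∀ C ∈ P, C.card ≤ A)
    (hQA : ∀ B ∈ Q, B.card ≤ A) (hQA' : ∀ B ∈ Q', B.card ≤ A)
    (hA : A ≤ 2 * R) (h : code R P Q = code R P Q') : Q = Q' := by
  classical
  have mem : ∀ (S : Finset (Finset (Fin n))) (x y : Fin n), (x, y) ∈ code R P S ↔
      x ∈ V1 R P S ∧ tt R P S x = y := by
    intro S x y
    unfold code
    rw [mem_image]
    constructor
    · rintro ⟨a, ha, he⟩
      rw [Prod.mk.injEq] at he
      obtain ⟨rfl, h2⟩ := he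
      exact ⟨ha, h2⟩
    · rintro ⟨h1, h2⟩
      exact ⟨x, h1, by rw [h2]⟩
  have hV : V1 R P Q' = V1 R P Q := by
    ext x
    constructor
    · intro hx
      have : (x, tt R P Q' x) ∈ code R P Q' := (mem Q' _ _).2 ⟨hx, rfl⟩
      rw [← h] at this
      exact ((mem Q _ _).1 this).1
    · intro hx
      have : (x, tt R P Q x) ∈ code R P Q := (mem Q _ _).2 ⟨hx, rfl⟩
      rw [h] at this
      exact ((mem Q' _ _).1 this).1
  have ht : ∀ x ∈ V1 R P Q, tt R P Q' x = tt R P Q x := by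
    intro x hx
    have : (x, tt R P Q x) ∈ code R P Q := (mem Q _ _).2 ⟨hx, rfl⟩
    rw [h] at this
    exact ((mem Q' _ _).1 this).2
  have hr : ∀ x y, Rel Q x y ↔ Rel Q' x y := by
    intro x y
    rw [rel_code A R P Q hP hQ hPA hQA hA (V1 R P Q) rfl (tt R P Q) (fun _ _ => rfl) x y,
      rel_code A R P Q' hP hQ' hPA hQA' hA (V1 R P Q) hV (tt R P Q) ht x y]
  exact Subset.antisymm (sub_of_rel Q Q' hQ hQ' hr)
    (sub_of_rel Q' Q hQ' hQ fun x y => (hr x y).symm)

end basic

private theorem card_small (α : Type) [Fintype α] [DecidableEq α] (N : ℕ) :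
    ((univ : Finset (Finset α)).filter (fun S => S.card ≤ N)).card ≤
      (Fintype.card α + 1) ^ N := by
  classical
  have h1 : (univ : Finset (Finset α)).filter (fun S => S.card ≤ N) ⊆
      (univ : Finset (Fin N → Option α)).image
        (fun f => univ.filter (fun a => ∃ i, f i = some a)) := by
    intro S hS
    rw [mem_filter] at hS
    rw [mem_image]
    refine ⟨fun i => if h : i.1 < S.card then some (S.equivFin.symm ⟨i.1, h⟩).1 else none,
      mem_univ _, ?_⟩
    ext a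
    rw [mem_filter]
    simp only [mem_univ, true_and]
    constructor
    · rintro ⟨i, hi⟩
      split_ifs at hi with h
      · rw [Option.some.injEq] at hi
        rw [← hi]
        exact (S.equivFin.symm ⟨i.1, h⟩).2
    · intro ha
      have h2 := (S.equivFin ⟨a, ha⟩).2
      refine ⟨⟨(S.equivFin ⟨a, ha⟩).1, lt_of_lt_of_le h2 hS.2⟩, ?_⟩
      rw [dif_pos h2]
      simp
  refine (card_le_card h1).trans (card_image_le.trans ?_)
  rw [card_univ, Fintype.card_fun, Fintype.card_option, Fintype.card_fin]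

theorem hCRU : StCRU := by
  classical
  intro n A R N₁ P hP hPA hA
  have hovB : ∀ Q : Finset (Finset (Fin n)), ovB R P Q ≤ ovl P Q := by
    intro Q
    unfold ovB ovl
    have hsub : bigS R P Q ⊆ P := fun C hC => (mem_filter.1 hC).1
    refine le_trans ?_ (sum_le_sum_of_subset_of_nonneg hsub fun _ _ _ => Nat.zero_le _)
    refine sum_le_sum fun C hC => ?_
    obtain ⟨B, hB, hB'⟩ := mxb_attained Q C R (mem_filter.1 hC).2
    rw [← hB']
    exact single_le_sum (f := fun B => (C ∩ B).card.choose 2) (fun _ _ => Nat.zero_le _) hB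
  refine ⟨?_, ?_, ?_⟩
  · have h1 : ((Pt (Fin n)).filter (fun Q : Finset (Finset (Fin n)) =>
        (∀ B ∈ Q, B.card ≤ A) ∧ NR R P Q ≤ N₁)).card ≤
        ((univ : Finset (Finset (Fin n × Fin n))).filter
          (fun S : Finset (Fin n × Fin n) => S.card ≤ N₁)).card := by
      refine card_le_card_of_injOn (code R P) ?_ ?_
      · intro Q hQ
        rw [mem_coe, mem_filter] at hQ
        rw [mem_coe, mem_filter]
        refine ⟨mem_univ _, ?_⟩
        exact card_image_le.trans ((card_V1 R P Q hP).trans hQ.2.2)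
      · intro Q hQ Q' hQ' h
        rw [mem_coe, mem_filter] at hQ hQ'
        exact code_inj A R P Q Q' hP hQ.1 hQ'.1 hPA hQ.2.1 hQ'.2.1 hA h
    refine h1.trans ((card_small _ _).trans ?_)
    rw [Fintype.card_prod, Fintype.card_fin, pow_mul]
    refine Nat.pow_le_pow_left ?_ _
    nlinarith [Nat.zero_le n, Nat.zero_le (n ^ 2), Nat.zero_le (n ^ 3)]
  · intro Q hQ
    refine le_trans ?_ (Nat.mul_le_mul_left 2 (hovB Q))
    have h1 : n - NR R P Q ≤ ∑ C ∈ bigS R P Q, mxb Q C := by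
      unfold NR
      rw [Fintype.card_fin]
      omega
    refine (Nat.mul_le_mul_right R h1).trans ?_
    unfold ovB
    rw [sum_mul, mul_sum]
    refine sum_le_sum fun C hC => ?_
    rw [two_choose]
    have h2 : R < mxb Q C := (mem_filter.1 hC).2
    exact Nat.mul_le_mul_left _ (by omega)
  · intro Q hQ
    refine ⟨?_, ?_, hovB Q, ?_⟩
    · unfold ovl inn
      rw [sum_comm]
      exact sum_le_sum fun B _ => sum_block P hP B
    · unfold ovl inn
      refine sum_le_sum fun C _ => ?_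
      have := sum_block Q hQ C
      refine le_trans (le_of_eq ?_) this
      exact sum_congr rfl fun B _ => by rw [inter_comm]
    · unfold NR
      rw [Fintype.card_fin]
      omega

end Pool.Agent.Helper11.UX
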